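import Mathlib

set_option autoImplicit false

open Finset Filter Topology
open scoped Pointwise

namespace Pool.Agent.Results.MP_f9e5d9_nt.RatioExponent

/-- The set `R(A) = {a / gcd(b, a) : a, b ∈ A}` of distinct ratios. -/
def ratios (A : Finset ℕ) : Finset ℕ :=
  (A ×ˢ A).image (fun p => p.1 / Nat.gcd p.2 p.1)

/-- `h n` is the minimum of `|R(A)|` over all sets `A` of `n` positive integers. -/
noncomputable def h (n : ℕ) : ℕ :=
  sInf {m : ℕ | ∃ A : Finset ℕ, A.card = n ∧ (∀ a ∈ A, 0 < a) ∧ (ratios A).card = m}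

/-! ### Lower bound -/

lemma card_le_sq (A : Finset ℕ) (hA : ∀ a ∈ A, 0 < a) : A.card ≤ (ratios A).card ^ 2 := by
  rcases A.eq_empty_or_nonempty with rfl | ⟨b, hb⟩
  · simp
  have hb0 : 0 < b := hA b hb
  have key : A.card ≤ ((ratios A) ×ˢ (ratios A)).card := by
    apply Finset.card_le_card_of_injOn (fun a => (a / Nat.gcd b a, b / Nat.gcd a b))
    · intro a ha
      simp only [Finset.coe_product, Set.mem_prod, Finset.mem_coe, ratios, Finset.mem_image,
        Finset.mem_product]
      exact ⟨⟨(a, b), ⟨ha, hb⟩, rfl⟩, ⟨(b, a), ⟨hb, ha⟩, rfl⟩⟩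
    · intro a ha a' ha' hEq
      simp only [Prod.mk.injEq] at hEq
      obtain ⟨h1, h2⟩ := hEq
      rw [Nat.gcd_comm b a, Nat.gcd_comm b a'] at h1
      have ha0 : 0 < a := hA a ha
      have ha0' : 0 < a' := hA a' ha'
      have g1 : a.gcd b ∣ b := Nat.gcd_dvd_right _ _
      have g2 : a'.gcd b ∣ b := Nat.gcd_dvd_right _ _
      have e1 := Nat.div_mul_cancel g1
      have e2 := Nat.div_mul_cancel g2
      have hpos : 0 < b / a.gcd b := Nat.div_pos (Nat.le_of_dvd hb0 g1) (Nat.gcd_pos_of_pos_right _ hb0)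
      have hg : a.gcd b = a'.gcd b := by
        rw [← h2] at e2
        exact Nat.eq_of_mul_eq_mul_left hpos (e1.trans e2.symm)
      have f1 := Nat.div_mul_cancel (Nat.gcd_dvd_left a b)
      have f2 := Nat.div_mul_cancel (Nat.gcd_dvd_left a' b)
      rw [← f1, ← f2, h1, hg]
  rw [Finset.card_product] at key
  rw [sq]; exact key

lemma ratios_mono {A B : Finset ℕ} (h : A ⊆ B) : ratios A ⊆ ratios B :=
  Finset.image_subset_image (Finset.product_subset_product h h)

lemma h_spec (n : ℕ) : ∃ A : Finset ℕ, A.card = n ∧ (∀ a ∈ A, 0 < a) ∧ (ratios A).card = h n := by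
  have : (sInf {m : ℕ | ∃ A : Finset ℕ, A.card = n ∧ (∀ a ∈ A, 0 < a) ∧ (ratios A).card = m}) ∈
      {m : ℕ | ∃ A : Finset ℕ, A.card = n ∧ (∀ a ∈ A, 0 < a) ∧ (ratios A).card = m} := by
    apply Nat.sInf_mem
    refine ⟨_, Finset.Icc 1 n, by simp, ?_, rfl⟩
    intro a ha
    exact (Finset.mem_Icc.mp ha).1
  exact this

lemma le_h_sq (n : ℕ) : n ≤ h n ^ 2 := by
  obtain ⟨A, hc, hp, hr⟩ := h_spec n
  rw [← hr]
  calc n = A.card := hc.symm
    _ ≤ _ := card_le_sq A hp

lemma h_le_of_set {n : ℕ} (A : Finset ℕ) (hc : n ≤ A.card) (hp : ∀ a ∈ A, 0 < a) :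
    h n ≤ (ratios A).card := by
  obtain ⟨B, hBA, hBc⟩ := Finset.exists_subset_card_eq hc
  calc h n ≤ (ratios B).card := Nat.sInf_le ⟨B, hBc, fun a ha => hp a (hBA ha), rfl⟩
    _ ≤ (ratios A).card := Finset.card_le_card (ratios_mono hBA)

/-! ### Vectors of exponents -/

/-- positive parts of differences -/
def posDiff {ι : Type} [Fintype ι] [DecidableEq ι] (S : Finset (ι → ℤ)) : Finset (ι → ℤ) :=
  (S ×ˢ S).image (fun p => (p.1 - p.2) ⊔ 0)

section step

variable {ι : Type} [Fintype ι] [DecidableEq ι] [Nonempty ι]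

/-- the doubled vector -/
def dbl (L : ℤ) (p : ℕ × (ι → ℤ) × (ι → ℤ)) : ι ⊕ ι → ℤ :=
  Sum.elim (fun i => L * p.1 + p.2.1 i) (fun i => - (L * p.1) + p.2.2 i)

/-- the same with integer parameter -/
def dblZ (L : ℤ) (p : ℤ × (ι → ℤ) × (ι → ℤ)) : ι ⊕ ι → ℤ :=
  Sum.elim (fun i => L * p.1 + p.2.1 i) (fun i => - (L * p.1) + p.2.2 i)

lemma step (S : Finset (ι → ℤ)) (M : ℕ) :
    ∃ S' : Finset (ι ⊕ ι → ℤ), S'.card = M * (S.card * S.card) ∧
      (S' - S').card ≤ (2 * M) * ((S - S).card * (S - S).card) ∧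
      (posDiff S').card ≤ (posDiff S).card * (posDiff S).card + 2 * (M * (S - S).card) := by
  -- bound for all coordinates
  obtain ⟨B, hB⟩ : ∃ B : ℕ, ∀ x ∈ S, ∀ i, |x i| ≤ (B : ℤ) := by
    refine ⟨∑ x ∈ S, ∑ i, (x i).natAbs, ?_⟩
    intro x hx i
    rw [Int.abs_eq_natAbs]
    norm_cast
    calc (x i).natAbs ≤ ∑ i, (x i).natAbs :=
          Finset.single_le_sum (f := fun i => (x i).natAbs) (fun _ _ => Nat.zero_le _) (Finset.mem_univ i)
      _ ≤ _ := Finset.single_le_sum (f := fun x : ι → ℤ => ∑ i, (x i).natAbs)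
          (fun _ _ => Nat.zero_le _) hx
  set L : ℤ := 2 * B + 1 with hL
  have hLpos : 0 < L := by positivity
  have hdiff : ∀ x ∈ S, ∀ y ∈ S, ∀ i, |x i - y i| < L := by
    intro x hx y hy i
    calc |x i - y i| ≤ |x i| + |y i| := abs_sub _ _
      _ ≤ B + B := add_le_add (hB x hx i) (hB y hy i)
      _ < L := by rw [hL]; linarith
  obtain ⟨i0⟩ := (inferInstance : Nonempty ι)
  let T : Finset (ℕ × (ι → ℤ) × (ι → ℤ)) := (Finset.range M) ×ˢ (S ×ˢ S)
  refine ⟨T.image (dbl L), ?_, ?_, ?_⟩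
  · rw [Finset.card_image_of_injOn]
    · simp [T]
    · rintro ⟨t, x, y⟩ h1 ⟨t', x', y'⟩ h2 hEq
      simp only [T, Finset.coe_product, Set.mem_prod, Finset.mem_coe, Finset.mem_range] at h1 h2
      have e1 : ∀ i, L * t + x i = L * t' + x' i := fun i => congrFun hEq (Sum.inl i)
      have e2 : ∀ i, - (L * t) + y i = - (L * t') + y' i := fun i => congrFun hEq (Sum.inr i)
      have ht : (t : ℤ) = t' := by
        have := hdiff x' h2.2.1 x h1.2.1 i0
        have h3 : L * ((t : ℤ) - t') = x' i0 - x i0 := by linarith [e1 i0]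
        rw [← h3, abs_mul, abs_of_pos hLpos] at this
        have h4 : |(t : ℤ) - t'| < 1 := by
          by_contra hcon
          push Not at hcon
          nlinarith
        have h5 := abs_eq_zero.mp (le_antisymm (Int.lt_add_one_iff.mp (by simpa using h4)) (abs_nonneg _))
        linarith
      have hx : x = x' := by
        funext i; have := e1 i; rw [ht] at this; linarith
      have hy : y = y' := by
        funext i; have := e2 i; rw [ht] at this; linarith
      have ht' : t = t' := by exact_mod_cast ht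
      rw [ht', hx, hy]
  · -- differences
    have hsub : (T.image (dbl L)) - (T.image (dbl L)) ⊆
        ((Finset.Ioo (-(M : ℤ)) M) ×ˢ ((S - S) ×ˢ (S - S))).image (dblZ L) := by
      intro v hv
      rw [Finset.mem_sub] at hv
      obtain ⟨a, ha, b, hb, rfl⟩ := hv
      rw [Finset.mem_image] at ha hb
      obtain ⟨⟨t, x, y⟩, h1, rfl⟩ := ha
      obtain ⟨⟨t', x', y'⟩, h2, rfl⟩ := hb
      simp only [T, Finset.mem_product, Finset.mem_range] at h1 h2
      rw [Finset.mem_image]
      refine ⟨((t : ℤ) - t', x - x', y - y'), ?_, ?_⟩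
      · simp only [Finset.mem_product, Finset.mem_Ioo]
        refine ⟨⟨by omega, by omega⟩, Finset.sub_mem_sub h1.2.1 h2.2.1,
          Finset.sub_mem_sub h1.2.2 h2.2.2⟩
      · funext j
        rcases j with i | i
        · simp only [dblZ, dbl, Sum.elim_inl, Pi.sub_apply]; ring
        · simp only [dblZ, dbl, Sum.elim_inr, Pi.sub_apply]; ring
    calc _ ≤ _ := Finset.card_le_card hsub
      _ ≤ _ := Finset.card_image_le
      _ ≤ _ := by
        rw [Finset.card_product, Finset.card_product]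
        apply Nat.mul_le_mul_right
        rw [Int.card_Ioo]
        omega
  · -- positive parts
    have hsub : posDiff (T.image (dbl L)) ⊆
        ((posDiff S ×ˢ posDiff S).image (fun p => (Sum.elim p.1 p.2 : ι ⊕ ι → ℤ))) ∪
        ((((Finset.Ioo (0 : ℤ) M) ×ˢ (S - S)).image
            (fun p => (Sum.elim (fun i => L * p.1 + p.2 i) (fun _ => 0) : ι ⊕ ι → ℤ))) ∪
         (((Finset.Ioo (0 : ℤ) M) ×ˢ (S - S)).image
            (fun p => (Sum.elim (fun _ => 0) (fun i => L * p.1 + p.2 i) : ι ⊕ ι → ℤ)))) := by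
      intro v hv
      simp only [posDiff, Finset.mem_image, Finset.mem_product] at hv
      obtain ⟨⟨a, b⟩, ⟨⟨⟨t, x, y⟩, h1, rfl⟩, ⟨⟨t', x', y'⟩, h2, rfl⟩⟩, rfl⟩ := hv
      simp only [T, Finset.mem_product, Finset.mem_range] at h1 h2
      rcases lt_trichotomy t t' with hlt | heq | hgt
      · -- t < t' : second block survives
        apply Finset.mem_union_right
        apply Finset.mem_union_right
        rw [Finset.mem_image]
        refine ⟨((t' : ℤ) - t, y - y'), ?_, ?_⟩
        · simp only [Finset.mem_product, Finset.mem_Ioo]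
          refine ⟨⟨by omega, by omega⟩, Finset.sub_mem_sub h1.2.2 h2.2.2⟩
        · have hge : (1 : ℤ) ≤ (t' : ℤ) - t := by omega
          have hLt : L ≤ L * ((t' : ℤ) - t) := by nlinarith
          funext j
          rcases j with i | i
          · have h3 := (abs_lt.mp (hdiff x h1.2.1 x' h2.2.1 i))
            simp only [dbl, Sum.elim_inl, Pi.sup_apply, Pi.sub_apply, Pi.zero_apply]
            rw [eq_comm, max_eq_right]
            nlinarith [h3.2]
          · have h3 := (abs_lt.mp (hdiff y h1.2.2 y' h2.2.2 i))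
            simp only [dbl, Sum.elim_inr, Pi.sup_apply, Pi.sub_apply, Pi.zero_apply]
            rw [eq_comm, max_eq_left]
            · ring
            · nlinarith [h3.1]
      · subst heq
        apply Finset.mem_union_left
        rw [Finset.mem_image]
        refine ⟨((x - x') ⊔ 0, (y - y') ⊔ 0), ?_, ?_⟩
        · simp only [posDiff, Finset.mem_product, Finset.mem_image]
          exact ⟨⟨(x, x'), ⟨h1.2.1, h2.2.1⟩, rfl⟩, ⟨(y, y'), ⟨h1.2.2, h2.2.2⟩, rfl⟩⟩
        · funext j
          rcases j with i | i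
          · simp only [dbl, Sum.elim_inl, Pi.sup_apply, Pi.sub_apply, Pi.zero_apply]
            congr 1; ring
          · simp only [dbl, Sum.elim_inr, Pi.sup_apply, Pi.sub_apply, Pi.zero_apply]
            congr 1; ring
      · apply Finset.mem_union_right
        apply Finset.mem_union_left
        rw [Finset.mem_image]
        refine ⟨((t : ℤ) - t', x - x'), ?_, ?_⟩
        · simp only [Finset.mem_product, Finset.mem_Ioo]
          refine ⟨⟨by omega, by omega⟩, Finset.sub_mem_sub h1.2.1 h2.2.1⟩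
        · have hge : (1 : ℤ) ≤ (t : ℤ) - t' := by omega
          have hLt : L ≤ L * ((t : ℤ) - t') := by nlinarith
          funext j
          rcases j with i | i
          · have h3 := (abs_lt.mp (hdiff x h1.2.1 x' h2.2.1 i))
            simp only [dbl, Sum.elim_inl, Pi.sup_apply, Pi.sub_apply, Pi.zero_apply]
            rw [eq_comm, max_eq_left]
            · ring
            · nlinarith [h3.1]
          · have h3 := (abs_lt.mp (hdiff y h1.2.2 y' h2.2.2 i))
            simp only [dbl, Sum.elim_inr, Pi.sup_apply, Pi.sub_apply, Pi.zero_apply]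
            rw [eq_comm, max_eq_right]
            nlinarith [h3.2]
    have hM : (Finset.Ioo (0 : ℤ) M).card ≤ M := by rw [Int.card_Ioo]; omega
    calc _ ≤ _ := Finset.card_le_card hsub
      _ ≤ _ := Finset.card_union_le _ _
      _ ≤ _ := by
        apply Nat.add_le_add
        · calc _ ≤ _ := Finset.card_image_le
            _ = _ := Finset.card_product _ _
        · calc _ ≤ _ := Finset.card_union_le _ _
            _ ≤ M * (S - S).card + M * (S - S).card := by
              apply Nat.add_le_add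
              · calc _ ≤ _ := Finset.card_image_le
                  _ = _ := Finset.card_product _ _
                  _ ≤ _ := Nat.mul_le_mul_right _ hM
              · calc _ ≤ _ := Finset.card_image_le
                  _ = _ := Finset.card_product _ _
                  _ ≤ _ := Nat.mul_le_mul_right _ hM
            _ = _ := by ring

end step

/-- The recursive statement. -/
lemma construction (k : ℕ) : ∃ (ι : Type) (_ : Fintype ι) (_ : DecidableEq ι) (_ : Nonempty ι)
    (C K : ℕ), ∀ M : ℕ, 1 ≤ M → ∃ S : Finset (ι → ℤ),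
      S.card = M ^ (2 ^ (k + 1) - 1) ∧ (S - S).card ≤ K * M ^ (2 ^ (k + 1) - 1) ∧
      (posDiff S).card ≤ C * M ^ (2 ^ k) := by
  induction k with
  | zero =>
    refine ⟨Unit, inferInstance, inferInstance, inferInstance, 1, 2, ?_⟩
    intro M hM
    refine ⟨(Finset.range M).image (fun t : ℕ => (fun _ => (t : ℤ) : Unit → ℤ)), ?_, ?_, ?_⟩
    · rw [Finset.card_image_of_injective]
      · simp
      · intro a b hab
        have := congrFun hab ()
        simpa using this
    · have hsub : ((Finset.range M).image (fun t : ℕ => (fun _ => (t : ℤ) : Unit → ℤ)))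
          - ((Finset.range M).image (fun t : ℕ => (fun _ => (t : ℤ) : Unit → ℤ)))
          ⊆ (Finset.Ioo (-(M : ℤ)) M).image (fun t : ℤ => (fun _ => t : Unit → ℤ)) := by
        intro v hv
        rw [Finset.mem_sub] at hv
        obtain ⟨a, ha, b, hb, rfl⟩ := hv
        rw [Finset.mem_image] at ha hb
        obtain ⟨t, h1, rfl⟩ := ha
        obtain ⟨t', h2, rfl⟩ := hb
        rw [Finset.mem_range] at h1 h2
        rw [Finset.mem_image]
        refine ⟨(t : ℤ) - t', ?_, ?_⟩
        · rw [Finset.mem_Ioo]; constructor <;> omega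
        · funext _; simp
      calc _ ≤ _ := Finset.card_le_card hsub
        _ ≤ _ := Finset.card_image_le
        _ ≤ _ := by
          rw [Int.card_Ioo]
          simp only [zero_add, pow_one]
          norm_num
          omega
    · have hsub : posDiff ((Finset.range M).image (fun t : ℕ => (fun _ => (t : ℤ) : Unit → ℤ)))
          ⊆ (Finset.Ico (0 : ℤ) M).image (fun t : ℤ => (fun _ => t : Unit → ℤ)) := by
        intro v hv
        simp only [posDiff, Finset.mem_image, Finset.mem_product, Finset.mem_range] at hv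
        obtain ⟨⟨a, b⟩, ⟨⟨t, h1, rfl⟩, ⟨t', h2, rfl⟩⟩, rfl⟩ := hv
        rw [Finset.mem_image]
        refine ⟨max ((t : ℤ) - t') 0, ?_, ?_⟩
        · rw [Finset.mem_Ico]
          constructor
          · exact le_max_right _ _
          · apply max_lt <;> omega
        · funext _; simp
      calc _ ≤ _ := Finset.card_le_card hsub
        _ ≤ _ := Finset.card_image_le
        _ ≤ _ := by
          rw [Int.card_Ico]
          simp
  | succ k ih =>
    obtain ⟨ι, _, _, _, C, K, ih⟩ := ih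
    refine ⟨ι ⊕ ι, inferInstance, inferInstance, inferInstance, C * C + 2 * K, 2 * (K * K), ?_⟩
    intro M hM
    obtain ⟨S, h1, h2, h3⟩ := ih M hM
    obtain ⟨S', g1, g2, g3⟩ := step S M
    have hexp : 2 ^ (k + 1 + 1) - 1 = (2 ^ (k + 1) - 1) + (2 ^ (k + 1) - 1) + 1 := by
      have : 1 ≤ 2 ^ (k + 1) := Nat.one_le_two_pow
      rw [pow_succ 2 (k + 1)]; omega
    have hexp2 : 2 ^ (k + 1) = (2 ^ (k + 1) - 1) + 1 := by
      have : 1 ≤ 2 ^ (k + 1) := Nat.one_le_two_pow
      omega
    refine ⟨S', ?_, ?_, ?_⟩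
    · rw [g1, h1, hexp, pow_succ, pow_add]; ring
    · calc _ ≤ _ := g2
        _ ≤ (2 * M) * ((K * M ^ (2 ^ (k + 1) - 1)) * (K * M ^ (2 ^ (k + 1) - 1))) :=
          Nat.mul_le_mul_left _ (Nat.mul_le_mul h2 h2)
        _ = _ := by rw [hexp, pow_succ, pow_add]; ring
    · calc _ ≤ _ := g3
        _ ≤ (C * M ^ (2 ^ k)) * (C * M ^ (2 ^ k)) + 2 * (M * (K * M ^ (2 ^ (k + 1) - 1))) :=
          Nat.add_le_add (Nat.mul_le_mul h3 h3)
            (Nat.mul_le_mul_left _ (Nat.mul_le_mul_left _ h2))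
        _ = C * C * (M ^ (2 ^ k) * M ^ (2 ^ k)) + 2 * K * (M ^ (2 ^ (k + 1) - 1) * M) := by ring
        _ = _ := by
          rw [← pow_add, ← pow_succ, ← hexp2, ← two_mul, ← pow_succ']
          ring

/-! ### From exponent vectors to integers -/

section transfer

variable {ι : Type} [Fintype ι]

/-- the integer with exponent vector `u` with respect to the primes `p i` -/
def psi (p : ι → ℕ) (u : ι → ℤ) : ℕ := ∏ i, p i ^ (u i).toNat

lemma psi_pos {p : ι → ℕ} (hp : ∀ i, (p i).Prime) (u : ι → ℤ) : 0 < psi p u :=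
  Finset.prod_pos fun i _ => pow_pos (hp i).pos _

lemma psi_add (p : ι → ℕ) {u w : ι → ℤ} (hu : 0 ≤ u) (hw : 0 ≤ w) :
    psi p (u + w) = psi p u * psi p w := by
  unfold psi
  rw [← Finset.prod_mul_distrib]
  apply Finset.prod_congr rfl
  intro i _
  rw [← pow_add, Pi.add_apply, Int.toNat_add (hu i) (hw i)]

lemma psi_coprime {p : ι → ℕ} (hp : ∀ i, (p i).Prime) (hinj : Function.Injective p)
    {u w : ι → ℤ} (huw : ∀ i, u i = 0 ∨ w i = 0) : Nat.Coprime (psi p u) (psi p w) := by
  unfold psi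
  apply Nat.Coprime.prod_left
  intro i _
  apply Nat.Coprime.prod_right
  intro j _
  by_cases hij : i = j
  · subst hij
    rcases huw i with h | h <;> simp [h]
  · exact Nat.Coprime.pow _ _ ((Nat.coprime_primes (hp i) (hp j)).mpr fun h => hij (hinj h))

lemma psi_inj {p : ι → ℕ} (hp : ∀ i, (p i).Prime) (hinj : Function.Injective p)
    {u w : ι → ℤ} (hu : 0 ≤ u) (hw : 0 ≤ w) (h : psi p u = psi p w) : u = w := by
  classical
  have key : ∀ (v : ι → ℤ) (i : ι), (psi p v).factorization (p i) = (v i).toNat := by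
    intro v i
    unfold psi
    rw [Nat.factorization_prod (fun j _ => pow_ne_zero _ (hp j).ne_zero)]
    rw [Finsupp.finsetSum_apply]
    rw [Finset.sum_eq_single i]
    · rw [(hp i).factorization_pow]; simp
    · intro j _ hj
      rw [(hp j).factorization_pow]
      rw [Finsupp.single_apply, if_neg]
      exact fun hh => hj (hinj hh)
    · intro hi; exact absurd (Finset.mem_univ i) hi
  funext i
  have h1 := key u i
  rw [h, key w i] at h1
  have h2 := Int.toNat_of_nonneg (hu i)
  have h3 := Int.toNat_of_nonneg (hw i)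
  rw [← h2, ← h3, h1]

lemma transfer [DecidableEq ι] (S : Finset (ι → ℤ)) :
    ∃ A : Finset ℕ, A.card = S.card ∧ (∀ a ∈ A, 0 < a) ∧
      (ratios A).card ≤ (posDiff S).card := by
  obtain ⟨B, hB⟩ : ∃ B : ℕ, ∀ x ∈ S, ∀ i, |x i| ≤ (B : ℤ) := by
    refine ⟨∑ x ∈ S, ∑ i, (x i).natAbs, ?_⟩
    intro x hx i
    rw [Int.abs_eq_natAbs]
    norm_cast
    calc (x i).natAbs ≤ ∑ i, (x i).natAbs :=
          Finset.single_le_sum (f := fun i => (x i).natAbs) (fun _ _ => Nat.zero_le _) (Finset.mem_univ i)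
      _ ≤ _ := Finset.single_le_sum (f := fun x : ι → ℤ => ∑ i, (x i).natAbs)
          (fun _ _ => Nat.zero_le _) hx
  let p : ι → ℕ := fun i => Nat.nth Nat.Prime (Fintype.equivFin ι i)
  have hp : ∀ i, (p i).Prime := fun i => Nat.prime_nth_prime _
  have hinj : Function.Injective p := by
    intro i j hij
    have h1 := Nat.nth_injective Nat.infinite_setOfPred_prime hij
    exact (Fintype.equivFin ι).injective (Fin.ext h1)
  let c : ι → ℤ := fun _ => B
  have hnn : ∀ x ∈ S, 0 ≤ x + c := by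
    intro x hx i
    have := (abs_le.mp (hB x hx i)).1
    simp only [Pi.add_apply, Pi.zero_apply, c]
    linarith
  refine ⟨S.image (fun x => psi p (x + c)), ?_, ?_, ?_⟩
  · rw [Finset.card_image_of_injOn]
    intro x hx y hy hxy
    have := psi_inj hp hinj (hnn x hx) (hnn y hy) hxy
    exact add_right_cancel this
  · intro a ha
    rw [Finset.mem_image] at ha
    obtain ⟨x, _, rfl⟩ := ha
    exact psi_pos hp _
  · have hsub : ratios (S.image (fun x => psi p (x + c))) ⊆ (posDiff S).image (psi p) := by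
      intro r hr
      simp only [ratios, Finset.mem_image, Finset.mem_product] at hr
      obtain ⟨⟨a, b⟩, ⟨⟨x, hx, rfl⟩, ⟨y, hy, rfl⟩⟩, rfl⟩ := hr
      rw [Finset.mem_image]
      refine ⟨(x - y) ⊔ 0, ?_, ?_⟩
      · simp only [posDiff, Finset.mem_image, Finset.mem_product]
        exact ⟨(x, y), ⟨hx, hy⟩, rfl⟩
      · have hm : 0 ≤ x ⊓ y + c := by
          intro i
          have h1 := hnn x hx i
          have h2 := hnn y hy i
          simp only [Pi.add_apply, Pi.zero_apply, Pi.inf_apply] at h1 h2 ⊢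
          rcases le_total (x i) (y i) with h | h
          · rw [inf_eq_left.mpr h]; exact h1
          · rw [inf_eq_right.mpr h]; exact h2
        have e1 : x + c = ((x - y) ⊔ 0) + (x ⊓ y + c) := by
          funext i
          simp only [Pi.add_apply, Pi.sup_apply, Pi.inf_apply, Pi.sub_apply, Pi.zero_apply]
          rcases le_total (x i) (y i) with h | h
          · rw [inf_eq_left.mpr h, sup_eq_right.mpr (by linarith)]; ring
          · rw [inf_eq_right.mpr h, sup_eq_left.mpr (by linarith)]; ring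
        have e2 : y + c = ((y - x) ⊔ 0) + (x ⊓ y + c) := by
          funext i
          simp only [Pi.add_apply, Pi.sup_apply, Pi.inf_apply, Pi.sub_apply, Pi.zero_apply]
          rcases le_total (x i) (y i) with h | h
          · rw [inf_eq_left.mpr h, sup_eq_left.mpr (by linarith)]; ring
          · rw [inf_eq_right.mpr h, sup_eq_right.mpr (by linarith)]; ring
        have hn1 : (0 : ι → ℤ) ≤ (x - y) ⊔ 0 := le_sup_right
        have hn2 : (0 : ι → ℤ) ≤ (y - x) ⊔ 0 := le_sup_right
        have hcop : Nat.Coprime (psi p ((y - x) ⊔ 0)) (psi p ((x - y) ⊔ 0)) := by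
          apply psi_coprime hp hinj
          intro i
          simp only [Pi.sup_apply, Pi.sub_apply, Pi.zero_apply]
          rcases le_total (x i) (y i) with h | h
          · right; exact sup_eq_right.mpr (by linarith)
          · left; exact sup_eq_right.mpr (by linarith)
        have hpos : 0 < psi p (x ⊓ y + c) := psi_pos hp _
        show psi p ((x - y) ⊔ 0) = psi p (x + c) / Nat.gcd (psi p (y + c)) (psi p (x + c))
        rw [e1, e2, psi_add p hn1 hm, psi_add p hn2 hm, Nat.gcd_mul_right,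
          Nat.coprime_iff_gcd_eq_one.mp hcop, one_mul, Nat.mul_div_cancel _ hpos]
    calc _ ≤ _ := Finset.card_le_card hsub
      _ ≤ _ := Finset.card_image_le

end transfer

/-! ### Conclusion -/

lemma h_upper (k : ℕ) : ∃ C : ℕ, ∀ M : ℕ, 1 ≤ M → ∀ n : ℕ, n ≤ M ^ (2 ^ (k + 1) - 1) →
    h n ≤ C * M ^ (2 ^ k) := by
  obtain ⟨ι, _, _, _, C, K, H⟩ := construction k
  refine ⟨C, fun M hM n hn => ?_⟩
  obtain ⟨S, h1, _, h3⟩ := H M hM
  obtain ⟨A, g1, g2, g3⟩ := transfer S
  calc h n ≤ (ratios A).card := h_le_of_set A (by rw [g1, h1]; exact hn) g2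
    _ ≤ _ := g3
    _ ≤ _ := h3

lemma h_pos {n : ℕ} (hn : 1 ≤ n) : 1 ≤ h n := by
  have := le_h_sq n
  rcases Nat.eq_zero_or_pos (h n) with h0 | h0
  · rw [h0] at this; simp at this; omega
  · exact h0

lemma log_lower {n : ℕ} (hn : 2 ≤ n) : 1 / 2 ≤ Real.log (h n) / Real.log n := by
  have hlog : 0 < Real.log n := Real.log_pos (by exact_mod_cast hn)
  rw [le_div_iff₀ hlog]
  have h1 : (n : ℝ) ≤ (h n : ℝ) ^ 2 := by exact_mod_cast le_h_sq n
  have h2 := Real.log_le_log (by positivity) h1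
  rw [Real.log_pow] at h2
  push_cast at h2
  linarith

lemma log_upper (k : ℕ) : ∃ C : ℝ, ∀ n : ℕ, 2 ≤ n →
    Real.log (h n) / Real.log n ≤ (2 : ℝ) ^ k / (2 ^ (k + 1) - 1) + C / Real.log n := by
  obtain ⟨C, hC⟩ := h_upper k
  have hd1 : 1 ≤ 2 ^ (k + 1) - 1 := by
    have : 2 ≤ 2 ^ (k + 1) := by
      calc 2 = 2 ^ 1 := by norm_num
        _ ≤ _ := Nat.pow_le_pow_right (by norm_num) (by omega)
    omega
  set d : ℕ := 2 ^ (k + 1) - 1 with hd
  have hdR : (d : ℝ) = 2 ^ (k + 1) - 1 := by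
    rw [hd, Nat.cast_sub Nat.one_le_two_pow]; push_cast; ring
  have hd0 : (0 : ℝ) < d := by exact_mod_cast hd1
  refine ⟨Real.log (C * 2 ^ (2 ^ k)), fun n hn => ?_⟩
  have hn0 : (0 : ℝ) < n := by positivity
  have hlog : 0 < Real.log n := Real.log_pos (by exact_mod_cast hn)
  have hx1 : (1 : ℝ) ≤ (n : ℝ) ^ (1 / (d : ℝ)) := by
    apply Real.one_le_rpow
    · exact_mod_cast (by omega : 1 ≤ n)
    · positivity
  have hM1 : 1 ≤ ⌈(n : ℝ) ^ (1 / (d : ℝ))⌉₊ := Nat.one_le_iff_ne_zero.mpr (by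
    intro h0
    rw [Nat.ceil_eq_zero] at h0
    linarith)
  have hMn : n ≤ ⌈(n : ℝ) ^ (1 / (d : ℝ))⌉₊ ^ d := by
    have h1 : (n : ℝ) ^ (1 / (d : ℝ)) ≤ ⌈(n : ℝ) ^ (1 / (d : ℝ))⌉₊ := Nat.le_ceil _
    have h2 : (n : ℝ) = ((n : ℝ) ^ (1 / (d : ℝ))) ^ d := by
      rw [← Real.rpow_natCast, ← Real.rpow_mul hn0.le, one_div, inv_mul_cancel₀ hd0.ne', Real.rpow_one]
    have h3 : (n : ℝ) ≤ ((⌈(n : ℝ) ^ (1 / (d : ℝ))⌉₊ ^ d : ℕ) : ℝ) := by
      push_cast
      calc (n : ℝ) = ((n : ℝ) ^ (1 / (d : ℝ))) ^ d := h2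
        _ ≤ _ := pow_le_pow_left₀ (by positivity) h1 _
    exact_mod_cast h3
  have hM2 : (⌈(n : ℝ) ^ (1 / (d : ℝ))⌉₊ : ℝ) ≤ 2 * (n : ℝ) ^ (1 / (d : ℝ)) := by
    have := Nat.ceil_lt_add_one (show (0 : ℝ) ≤ (n : ℝ) ^ (1 / (d : ℝ)) by positivity)
    linarith
  have hb := hC _ hM1 n hMn
  have hb' : (h n : ℝ) ≤ C * (⌈(n : ℝ) ^ (1 / (d : ℝ))⌉₊ : ℝ) ^ (2 ^ k) := by
    exact_mod_cast hb
  have hC0 : (0 : ℝ) < C := by
    rcases Nat.eq_zero_or_pos C with h0 | h0
    · rw [h0] at hb
      have := h_pos (show 1 ≤ n by omega)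
      omega
    · exact_mod_cast h0
  have hb2 : (h n : ℝ) ≤ (C * 2 ^ (2 ^ k)) * ((n : ℝ) ^ (1 / (d : ℝ))) ^ (2 ^ k) := by
    calc (h n : ℝ) ≤ C * (⌈(n : ℝ) ^ (1 / (d : ℝ))⌉₊ : ℝ) ^ (2 ^ k) := hb'
      _ ≤ C * (2 * (n : ℝ) ^ (1 / (d : ℝ))) ^ (2 ^ k) := by
        apply mul_le_mul_of_nonneg_left _ hC0.le
        exact pow_le_pow_left₀ (by positivity) hM2 _
      _ = _ := by rw [mul_pow]; ring
  have hhpos : (0 : ℝ) < h n := by exact_mod_cast h_pos (show 1 ≤ n by omega)
  have hlog2 := Real.log_le_log hhpos hb2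
  rw [Real.log_mul (by positivity) (by positivity), Real.log_pow, Real.log_rpow hn0] at hlog2
  rw [← hdR, div_le_iff₀ hlog]
  have : (2 ^ k / (d : ℝ) + Real.log (C * 2 ^ 2 ^ k) / Real.log n) * Real.log n
      = Real.log (C * 2 ^ (2 ^ k)) + ((2 ^ k : ℕ) : ℝ) * (1 / (d : ℝ) * Real.log n) := by
    push_cast
    field_simp
    ring
  rw [this]
  exact hlog2

/-- `log h(n) / log n → 1/2`. -/
theorem result : Tendsto (fun n : ℕ => Real.log (h n) / Real.log n) atTop (𝓝 (1 / 2)) := by
  rw [tendsto_order]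
  constructor
  · intro a ha
    filter_upwards [eventually_ge_atTop 2] with n hn
    exact lt_of_lt_of_le ha (log_lower hn)
  · intro b hb
    -- choose k
    have hlim : Tendsto (fun k : ℕ => (2 : ℝ) ^ k / (2 ^ (k + 1) - 1)) atTop (𝓝 (1 / 2)) := by
      have h1 : Tendsto (fun k : ℕ => (1 : ℝ) / (2 - (1 / 2) ^ k)) atTop (𝓝 (1 / (2 - 0))) := by
        apply Tendsto.div tendsto_const_nhds
        · exact tendsto_const_nhds.sub (tendsto_pow_atTop_nhds_zero_of_lt_one (by norm_num) (by norm_num))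
        · norm_num
      have h2 : (fun k : ℕ => (2 : ℝ) ^ k / (2 ^ (k + 1) - 1)) =
          fun k : ℕ => (1 : ℝ) / (2 - (1 / 2) ^ k) := by
        funext k
        have hk : (0 : ℝ) < 2 ^ k := by positivity
        have hk1 : (1 : ℝ) ≤ 2 ^ k := one_le_pow₀ (by norm_num)
        rw [div_eq_div_iff]
        · rw [one_div, inv_pow]; field_simp; ring
        · rw [pow_succ]; nlinarith
        · have : ((1 : ℝ) / 2) ^ k ≤ 1 := pow_le_one₀ (by norm_num) (by norm_num)
          linarith
      rw [h2]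
      simpa using h1
    obtain ⟨k, hk⟩ := ((tendsto_order.mp hlim).2 b hb).exists
    obtain ⟨C, hC⟩ := log_upper k
    have hlog : Tendsto (fun n : ℕ => Real.log n) atTop atTop :=
      Real.tendsto_log_atTop.comp tendsto_natCast_atTop_atTop
    have h3 : Tendsto (fun n : ℕ => (2 : ℝ) ^ k / (2 ^ (k + 1) - 1) + C / Real.log n) atTop
        (𝓝 ((2 : ℝ) ^ k / (2 ^ (k + 1) - 1) + 0)) :=
      tendsto_const_nhds.add (tendsto_const_nhds.div_atTop hlog)
    rw [add_zero] at h3
    filter_upwards [(tendsto_order.mp h3).2 b hk, eventually_ge_atTop 2] with n h4 h5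
    exact lt_of_le_of_lt (hC n h5) h4

end Pool.Agent.Results.MP_f9e5d9_nt.RatioExponent
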